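import Pool.Agent.Results.MP_2b9663_nt.OddCohomologyNearTheEdge
import Pool.Agent.Run7.h712.OC.Main
import Pool.Agent.Run7.h712.TS.Kinds

/-!
# The odd cohomology of products of curves and Jacobians near the edge, for almost all members of thin families

The varieties `X_c` and their L-functions are those of `OddCohomologyNearTheEdge`: products of hyperelliptic curves `y² = F_j(c; x)` over any
number field `K` and of their Jacobians, in families of which a scaling of the parameters twists all the curves; `i` is odd.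
-/

set_option autoImplicit false

namespace Pool.Agent.Results.MP_2b9663_nt.AlmostAllMembers

open NumberField IsDedekindDomain Polynomial Finset Filter MeasureTheory
open Pool.Agent.Results.MP_2b9663_nt.OddCohomologyNearTheEdge (member logLc LSeriesc wedge cohom localTrace trace Good)

section
variable {K : Type} [Field K] [NumberField K] {J : Type} [Fintype J] [DecidableEq J] {R : Type} [Fintype R] [DecidableEq R]

/-- No zero and no pole is visible from the distance `1 / log N` of the line `Re s = 1 + i / 2`, up to the height `N ^ κ`: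
`|log L(H^i(X_c), s)| ≤ C log log (y + |Im s|)` for all `s` with `1 + i / 2 + 1 / log N ≤ Re s ≤ 2 + i / 2` and `|Im s| ≤ N ^ κ`. -/
def Quiet (jac : R → Bool) (i : ℕ) (F : R → (MvPolynomial J (𝓞 K))[X]) (κ C : ℝ) (N y : ℕ) (c : J → ℤ) : Prop :=
  ∀ s : ℂ, 1 + (i : ℝ) / 2 + 1 / Real.log N ≤ s.re → s.re ≤ 2 + (i : ℝ) / 2 → |s.im| ≤ (N : ℝ) ^ κ →
    ‖logLc jac i F c s‖ ≤ C * Real.log (Real.log (y + |s.im|))

/-- the box of the integer vectors with `a l < c l ≤ a l + L l` -/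
noncomputable def cube (a : J → ℤ) (L : J → ℕ) : Finset (J → ℤ) := Fintype.piFinset fun l => Ioc (a l) (a l + L l)

open Classical in
/-- All but the proportion `y ^ (-E)` of the members in any box with sides at least `N`, anywhere. -/
def Boxes (jac : R → Bool) (i : ℕ) (F : R → (MvPolynomial J (𝓞 K))[X]) (E : ℕ) : Prop :=
  ∃ κ C : ℝ, 0 < κ ∧ 0 < C ∧ ∃ y₀ : ℕ, 16 ≤ y₀ ∧ ∀ y N : ℕ, y₀ ≤ y → 2 ≤ N → ∀ (a : J → ℤ) (L : J → ℕ), (∀ l, N ≤ L l) →
    (((cube a L).filter fun c => ¬ Quiet jac i F κ C N y c).card : ℝ) ≤ 1 / (y : ℝ) ^ E * (cube a L).card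

open Classical in
/-- All but the proportion `y ^ (-E)` of the members `x t`, for the integers `t ∈ (N, 2 N]` and for the primes `t ∈ (N, 2 N]`. -/
def AlmostAll (jac : R → Bool) (i : ℕ) (F : R → (MvPolynomial J (𝓞 K))[X]) (E : ℕ) (x : ℕ → J → ℤ) : Prop :=
  ∃ κ C : ℝ, 0 < κ ∧ 0 < C ∧ ∃ y₀ : ℕ, 16 ≤ y₀ ∧ ∀ y N : ℕ, y₀ ≤ y → 2 ≤ N →
    (((Ioc N (2 * N)).filter fun t => ¬ Quiet jac i F κ C N y (x t)).card : ℝ) ≤ 1 / (y : ℝ) ^ E * (Ioc N (2 * N)).card ∧
    ((((Ioc N (2 * N)).filter Nat.Prime).filter fun t => ¬ Quiet jac i F κ C N y (x t)).card : ℝ) ≤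
      1 / (y : ℝ) ^ E * ((Ioc N (2 * N)).filter Nat.Prime).card

/-- The generalised polynomial `∑ t ∈ F, a t * X ^ t` has the leading exponent `c`, which is positive and not an integer, and a
positive leading coefficient. -/
def Admissible (F : Finset ℝ) (a : ℝ → ℝ) (c : ℝ) : Prop :=
  c ∈ F ∧ (∀ t ∈ F, t ≤ c) ∧ 0 < c ∧ (∀ k : ℕ, c ≠ k) ∧ 0 < a c

/-- The functions `F t` have separated derivatives and increasing second derivatives on `[u, v]`, for large `t`. -/
def Separated (ρ u v : ℝ) (F : ℕ → ℝ → ℝ) : Prop :=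
  (∀ n, ContDiff ℝ 2 (F n)) ∧ ∃ n₀ : ℕ, ∀ n, n₀ ≤ n → ∀ x ∈ Set.Icc u v,
    (n : ℝ) ^ (ρ - 1) ≤ deriv (F (n + 1)) x - deriv (F n) x ∧
      deriv (deriv (F n)) x ≤ deriv (deriv (F (n + 1))) x

/-- **Almost all members.** For the families of `OddCohomologyNearTheEdge` and odd `i`, and for every exponent `E`: `L(H^i(X_c), s)` is
`exp` of `logLc` in the half-plane of absolute convergence, and all but the proportion `y ^ (-E)` of the members are `Quiet`,
* (1) in any box with sides at least `N`, anywhere;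
* (2) for the parameters which are the integral parts of generalised polynomials with different leading exponents, at the integers `t` and at
  the primes `t` of `(N, 2 N]`;
* (3) for almost all members of the families of sequences `⌊f_l(t)(ξ_l)⌋` (separated derivatives), `⌊ξ_l g_l(t) + h_l(t)⌋`
  (with `g_l (t + 1) - g_l t ≥ t ^ (ρ - 1)`) and `⌊ξ_l ^ g_l(t) + h_l(t)⌋` (`g_l` strictly increasing, `ξ_l > 1`), of any growth. -/
theorem result [Nonempty J] [Nonempty R] (jac : R → Bool) (F : R → (MvPolynomial J (𝓞 K))[X])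
    (hF : ∀ j, 1 ≤ (F j).natDegree)
    (hc : ∀ j, ∃ c : J → ℤ, (member (F j) c).natDegree = (F j).natDegree ∧
      ((member (F j) c).map (algebraMap (𝓞 K) K)).Separable)
    (wt : J → ℕ) (a e : R → ℕ) (he : ∀ j, Odd (e j))
    (hs : ∀ (j : R) (G : ℤ) (c : J → ℤ), (member (F j) (fun l => G ^ wt l * c l)).comp (C ((G : 𝓞 K) ^ a j) * X) =
      C ((G : 𝓞 K) ^ e j) * member (F j) c)
    (i : ℕ) (hi : Odd i) (E : ℕ) (ρ : ℝ) (hρ : 0 < ρ) (hρ1 : ρ ≤ 1) :
    (∀ (c : J → ℤ) (s : ℂ), 1 + (i : ℝ) / 2 < s.re → LSeriesc jac i F c s = Complex.exp (logLc jac i F c s)) ∧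
    Boxes jac i F E ∧
    (∀ (f : J → Finset ℝ) (b : J → ℝ → ℝ) (c : J → ℝ), (∀ l, Admissible (f l) (b l) (c l)) → Function.Injective c →
      AlmostAll jac i F E (fun t l => ⌊∑ r ∈ f l, b l r * (t : ℝ) ^ r⌋)) ∧
    (∀ (u v : J → ℝ) (f : J → ℕ → ℝ → ℝ), (∀ l, Separated ρ (u l) (v l) (f l)) →
      ∀ᵐ ξ : J → ℝ, (∀ l, ξ l ∈ Set.Ioc (u l) (v l)) → AlmostAll jac i F E (fun t l => ⌊f l t (ξ l)⌋)) ∧
    (∀ g h : J → ℕ → ℝ, (∀ l, ∀ᶠ t : ℕ in atTop, (t : ℝ) ^ (ρ - 1) ≤ g l (t + 1) - g l t) →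
      ∀ᵐ ξ : J → ℝ, AlmostAll jac i F E (fun t l => ⌊ξ l * g l t + h l t⌋)) ∧
    (∀ (g : J → ℕ → ℕ) (h : J → ℕ → ℝ), (∀ l, StrictMono (g l)) →
      ∀ᵐ ξ : J → ℝ, (∀ l, 1 < ξ l) → AlmostAll jac i F E (fun t l => ⌊ξ l ^ g l t + h l t⌋)) := by
  have hwt : Pool.Agent.N534.HC.HasWt (Pool.Agent.N534.HC.Coh.Hd jac i) i :=
    (Pool.Agent.N534.HC.Inst.hasWt_iff _ _).2 (Pool.Agent.N534.HC.Coh.Hd_hom jac i)
  have hAdm : ∀ j, Pool.Agent.N534.HC.Adm (F j) := fun j => ⟨hF j, hc j⟩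
  have hodd := Pool.Agent.N534.HC.Inst.oddMon_all (F := F) (wt := wt) (a := a) (e := e) hs he hwt hi
  obtain ⟨D, hD⟩ := Pool.Agent.N534.HC.powH hwt hAdm hodd
  have hcmp := Pool.Agent.N534.HC.Inst.cmpH i (Pool.Agent.N534.HC.Coh.Hd jac i) F
  have hwedge : ∀ (P : ℕ → ℝ) (n : ℕ), wedge P n = Pool.Agent.N534.HC.Coh.wedge P n := by
    intro P n
    induction n using Nat.strong_induction_on with
    | _ n ih =>
      match n with
      | 0 => rw [wedge, Pool.Agent.N534.HC.Coh.wedge]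
      | n + 1 =>
        rw [wedge, Pool.Agent.N534.HC.Coh.wedge]
        congr 1
        refine Finset.sum_congr rfl fun l _ => ?_
        rw [ih (n - l) (by omega)]
  have hcoh : ∀ (b : Bool) (q : ℝ) (P : ℕ → ℝ), cohom b q P = Pool.Agent.N534.HC.Coh.cohom b q P := by
    intro b q P
    unfold cohom Pool.Agent.N534.HC.Coh.cohom
    have : wedge P = Pool.Agent.N534.HC.Coh.wedge P := funext (hwedge P)
    rw [this]
  have ht : ∀ c : J → ℤ, localTrace jac i (fun j => member (F j) c) =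
      Pool.Agent.N534.HC.Inst.tH (Pool.Agent.N534.HC.Coh.Hd jac i) F c := by
    intro c
    funext v k
    unfold localTrace Pool.Agent.N534.HC.Inst.tH Pool.Agent.N534.HC.chv
    rw [Pool.Agent.N534.HC.Coh.Hd_eval jac i _ (fun j l => ((trace (member (F j) c) v (k * l) : ℤ) : ℝ))
      (fun j l => congrArg (Int.cast : ℤ → ℝ)
        (Pool.Agent.N534.HC.Inst.trace_eq (member (F j) c) v (k * (l + 1))).symm)]
    simp only [hcoh]
    rfl
  have hg : ∀ c : J → ℤ, (fun v => ∀ j, Good (member (F j) c) (F j).natDegree v) =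
      Pool.Agent.N534.HC.Inst.gH F c := fun c => rfl
  have hL : ∀ (c : J → ℤ) (s : ℂ), logLc jac i F c s = Pool.Agent.N534.HC.St.logL
      (Pool.Agent.N534.HC.Inst.tH (Pool.Agent.N534.HC.Coh.Hd jac i) F c) (Pool.Agent.N534.HC.Inst.gH F c) s := by
    intro c s
    unfold logLc
    rw [ht, hg]
    rfl
  refine ⟨fun c s hs' => ?_, ?_⟩
  · have h1 := Pool.Agent.N534.HC.St.LSeries_eq hcmp hD c s hs'
    rw [hL c s, ← h1]
    unfold LSeriesc
    rw [ht, hg]
    rfl
  · refine Pool.Agent.Run7.h712.TS.kinds (Quiet jac i F) E (fun κ hκ N₀ => ?_) ρ hρ hρ1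
    exact Pool.Agent.Run7.h712.OC.pow_main' hcmp hD (fun c s => logLc jac i F c s) hL E hκ N₀

end

end Pool.Agent.Results.MP_2b9663_nt.AlmostAllMembers
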