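import Pool.Agent.Run7.h522.BD.Pts

/-!
# All primitive twists and all heights together on the edge of absolute convergence

`X` is a smooth projective variety over a number field `K`, `M` a part of `H^i(X)` stable under
Frobenius, of dimension `N` (`M = H^i(X)` for instance, or the realisation of a Chow motive), `χ` a
Dirichlet character and `L(M ⊗ χ, s)` the Euler product with the factors
`∏_j (1 - χ(q_v) α_{v,j} q_v^{-s})⁻¹` at the primes `v` outside a finite set `S`, `q_v` the norm of `v`.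
It converges absolutely for `Re s > i/2 + 1`.  Nothing is known about it to the left of this line, and no
continuation and no automorphy is used or assumed here.

Consider all primitive characters `χ` of conductor at most `Q` and all heights `t` with
`|t - t₀| ≤ T`, a family of total mass about `Q² T`, and let `Z ≥ (4 Q² T)²`.  The theorem says that in
the WHOLE family together the functions `log L(M ⊗ χ, i/2 + 1 + it)` on the edge are given by the
primes with `q_v < Z`, up to functions with a total square integral of at most `C (N [K : ℚ])² / log Z`,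
which tends to zero as `Q`, `T` or `Z` tends to infinity; the same holds to the right of the edge, and
pointwise, with the total `C (N [K : ℚ])² (1 + 1/(y log Z))`, for the values at the distance `y` from the
edge at well-spaced points.  In particular for all `δ > 0` the set of the exceptional pairs `(χ, t)`, where
`|log L(M ⊗ χ, i/2 + 1 + it) - (short sum)| > δ`, has at most the measure `C (N [K : ℚ])² / (δ² log Z)`.

`IsFrobenius`, `edgePoint` and `angle` are defined in `Pool/Agent/TH958/BV/Defs.lean`.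
-/

set_option autoImplicit false

namespace Pool.Agent.Results.MP_2b9663_nt.HybridLargeSieve

open NumberField IsDedekindDomain Filter Topology MeasureTheory Pool.Agent.TH958.BV

/-- `α_1, …, α_N` are eigenvalues of Frobenius at `v` on a part of `H^i(X)`: a part, of size `N`, of
the multiset of the eigenvalues of Frobenius on `H^i(X)`. -/
def IsPart {K : Type} [Field K] [NumberField K] {n : ℕ} (X : Set (MvPolynomial (Fin n) (𝓞 K)))
    (d i : ℕ) (v : HeightOneSpectrum (𝓞 K)) {N : ℕ} (α : Fin N → ℂ) : Prop :=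
  ∃ (N' : ℕ) (β : Fin N' → ℂ) (e : Fin N → Fin N'), Function.Injective e ∧
    IsFrobenius X d i v β ∧ ∀ j, α j = β (e j)

/-- The logarithm of the Euler factor of the twist at `v`: `∑_j - log (1 - χ(q_v) α_{v,j} q_v^{-s})`. -/
noncomputable def localLog {K : Type} [Field K] [NumberField K] {N : ℕ}
    (α : HeightOneSpectrum (𝓞 K) → Fin N → ℂ) {q : ℕ} (χ : DirichletCharacter ℂ q) (s : ℂ)
    (v : HeightOneSpectrum (𝓞 K)) : ℂ :=
  ∑ j, -Complex.log (1 - χ ((Ideal.absNorm v.asIdeal : ℕ) : ZMod q) * α v j *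
    (Ideal.absNorm v.asIdeal : ℂ) ^ (-s))

/-- `log L_S(M ⊗ χ, s)`, the sum over all `v ∉ S`. -/
noncomputable def logL {K : Type} [Field K] [NumberField K] {N : ℕ}
    (S : Set (HeightOneSpectrum (𝓞 K))) (α : HeightOneSpectrum (𝓞 K) → Fin N → ℂ) {q : ℕ}
    (χ : DirichletCharacter ℂ q) (s : ℂ) : ℂ :=
  ∑' v : {v : HeightOneSpectrum (𝓞 K) // v ∉ S}, localLog α χ s v

/-- The sum over the `v ∉ S` with `q_v < Z`. -/
noncomputable def shortLog {K : Type} [Field K] [NumberField K] {N : ℕ}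
    (S : Set (HeightOneSpectrum (𝓞 K))) (α : HeightOneSpectrum (𝓞 K) → Fin N → ℂ) {q : ℕ}
    (χ : DirichletCharacter ℂ q) (Z : ℕ) (s : ℂ) : ℂ :=
  ∑ᶠ v ∈ {v : HeightOneSpectrum (𝓞 K) | v ∉ S ∧ Ideal.absNorm v.asIdeal < Z}, localLog α χ s v

/-- The primitive Dirichlet characters modulo `q + 1`. -/
noncomputable def primitive (q : ℕ) : Finset (DirichletCharacter ℂ (q + 1)) := by
  classical exact Finset.univ.filter fun χ => χ.IsPrimitive

/-- **The hybrid large sieve on the edge.**  Let `M` be a part of `H^i(X)` as above, given by `N`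
eigenvalues of Frobenius at the primes outside a finite set `S`.

0. For almost all real `t` and all Dirichlet characters `χ` the function `log L_S(M ⊗ χ, s)` has a
limit `l_χ(t)` as `s` tends to `i/2 + 1 + it` in any angle in the half-plane `Re s > i/2 + 1`.

Let `Q ≥ 1` be an integer, `T ≥ 1` and `t₀` real and `Z ≥ (4 Q² T)²` an integer.  The sums are over all
primitive characters modulo `1, 2, …, Q`.

1. `∑_χ ∫ |l_χ(t) - (short sum at i/2 + 1 + it)|² dt ≤ 10⁶ (N [K : ℚ])² / log Z` for the integral over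
`|t - t₀| ≤ T`.
2. The same holds for the values at `i/2 + 1 + y + it`, for every `y > 0`.
3. For every `y > 0` and all finite sets `P_χ` of real numbers in `[t₀ - T, t₀ + T]`, any two elements of
`P_χ` at least `y` apart, the sum over all `χ` and all `t ∈ P_χ` of
`|log L_S(M ⊗ χ, i/2 + 1 + y + it) - (short sum)|²` is at most
`3 · 10⁶ (N [K : ℚ])² (1 + 1 / (y log Z))`. -/
theorem result (K : Type) [Field K] [NumberField K] (n d i N : ℕ)
    (X : Set (MvPolynomial (Fin n) (𝓞 K))) (_ : i ≤ 2 * d) (S : Set (HeightOneSpectrum (𝓞 K)))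
    (_ : S.Finite) (α : HeightOneSpectrum (𝓞 K) → Fin N → ℂ)
    (_ : ∀ v, v ∉ S → IsPart X d i v (α v)) :
    ∃ l : (q : ℕ) → DirichletCharacter ℂ (q + 1) → ℝ → ℂ,
      (∀ᵐ t : ℝ, ∀ (q : ℕ) (χ : DirichletCharacter ℂ (q + 1)) (A : ℝ),
        Tendsto (logL S α χ) (𝓝[angle i t A] (edgePoint i t)) (𝓝 (l q χ t))) ∧
      ∀ (Q Z : ℕ) (T t₀ : ℝ), 1 ≤ Q → 1 ≤ T → (4 * (Q : ℝ) ^ 2 * T) ^ 2 ≤ Z →
        (∑ q ∈ Finset.range Q, ∑ χ ∈ primitive q, ∫⁻ t in Set.Icc (t₀ - T) (t₀ + T),
          ‖l q χ t - shortLog S α χ Z (edgePoint i t)‖ₑ ^ 2 ≤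
            ENNReal.ofReal (10 ^ 6 * (N * Module.finrank ℚ K) ^ 2 / Real.log Z)) ∧
        (∀ y : ℝ, 0 < y →
          ∑ q ∈ Finset.range Q, ∑ χ ∈ primitive q, ∫⁻ t in Set.Icc (t₀ - T) (t₀ + T),
          ‖logL S α χ (edgePoint i t + y) - shortLog S α χ Z (edgePoint i t + y)‖ₑ ^ 2 ≤
            ENNReal.ofReal (10 ^ 6 * (N * Module.finrank ℚ K) ^ 2 / Real.log Z)) ∧
        ∀ (y : ℝ) (P : (q : ℕ) → DirichletCharacter ℂ (q + 1) → Finset ℝ), 0 < y →
          (∀ q χ, ∀ t ∈ P q χ, |t - t₀| ≤ T) →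
          (∀ q χ, ∀ t ∈ P q χ, ∀ t' ∈ P q χ, t ≠ t' → y ≤ |t - t'|) →
          ∑ q ∈ Finset.range Q, ∑ χ ∈ primitive q, ∑ t ∈ P q χ,
            ‖logL S α χ (edgePoint i t + y) - shortLog S α χ Z (edgePoint i t + y)‖ ^ 2 ≤
            3 * 10 ^ 6 * (N * Module.finrank ℚ K) ^ 2 * (1 + 1 / (y * Real.log Z)) := by
  classical
  rename_i _ _ hα
  have hW : Run7.h522.BM.Wt S i α := by
    intro v hv j
    obtain ⟨N', β, e, -, hβ, he⟩ := hα v hv
    rw [he]
    exact norm_of_isFrobenius hβ (e j)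
  -- the local terms
  have hloc : ∀ (q : ℕ) (χ : DirichletCharacter ℂ q) (s : ℂ) (v : HeightOneSpectrum (𝓞 K)),
      v ∉ S → localLog α χ s v =
        Run7.h522.BM.lv (Run7.h522.QA.Sx S q) (Run7.h522.QA.ax α χ) v s := by
    intro q χ s v hv
    unfold localLog Run7.h522.BM.lv
    by_cases hu : IsUnit (((Pool.Agent.H921R2.TatePole.nm v : ℕ)) : ZMod q)
    · have hv' : v ∉ Run7.h522.QA.Sx S q := by
        rintro (h | h)
        · exact hv h
        · exact h hu
      rw [if_neg hv']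
      rfl
    · have hv' : v ∈ Run7.h522.QA.Sx S q := Or.inr hu
      rw [if_pos hv']
      have h0 : χ ((Ideal.absNorm v.asIdeal : ℕ) : ZMod q) = 0 := χ.map_nonunit hu
      simp_rw [h0, zero_mul, sub_zero, Complex.log_one, neg_zero]
      exact Finset.sum_const_zero
  have hzero : ∀ (q : ℕ) (χ : DirichletCharacter ℂ q) (s : ℂ) (v : HeightOneSpectrum (𝓞 K)),
      v ∈ S → Run7.h522.BM.lv (Run7.h522.QA.Sx S q) (Run7.h522.QA.ax α χ) v s = 0 := by
    intro q χ s v hv
    unfold Run7.h522.BM.lv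
    exact if_pos (Or.inl hv)
  have hlog : ∀ (q : ℕ) (χ : DirichletCharacter ℂ q),
      logL S α χ = Run7.h522.BM.logL (Run7.h522.QA.Sx S q) (Run7.h522.QA.ax α χ) := by
    intro q χ
    funext s
    unfold logL Run7.h522.BM.logL
    have h1 := tsum_subtype (({v | v ∉ S} : Set (HeightOneSpectrum (𝓞 K)))) (localLog α χ s)
    refine h1.trans (tsum_congr fun v => ?_)
    by_cases hv : v ∈ S
    · rw [hzero q χ s v hv, Set.indicator_of_notMem (by simpa using hv)]
    · rw [← hloc q χ s v hv, Set.indicator_of_mem (by simpa using hv)]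
  have hshort : ∀ (q : ℕ) (χ : DirichletCharacter ℂ q) (Z : ℕ) (s : ℂ),
      shortLog S α χ Z s =
        ∑ v ∈ Pool.Agent.W350.EdgeV.FV Pool.Agent.H921R2.TatePole.nm
          Pool.Agent.W350.EdgeNF.hfin Z,
          Run7.h522.BM.lv (Run7.h522.QA.Sx S q) (Run7.h522.QA.ax α χ) v s := by
    intro q χ Z s
    unfold shortLog
    have hfs : {v : HeightOneSpectrum (𝓞 K) | v ∉ S ∧ Ideal.absNorm v.asIdeal < Z} =
        (((Pool.Agent.W350.EdgeV.FV Pool.Agent.H921R2.TatePole.nm
          Pool.Agent.W350.EdgeNF.hfin Z).filter fun v => v ∉ S :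
            Finset (HeightOneSpectrum (𝓞 K))) : Set (HeightOneSpectrum (𝓞 K))) := by
      ext v
      simp only [Set.mem_ofPred_eq, Finset.coe_filter, Pool.Agent.W350.EdgeV.mem_FV]
      exact and_comm
    rw [hfs, finsum_mem_coe_finset, Finset.sum_filter]
    refine Finset.sum_congr rfl fun v _ => ?_
    by_cases hv : v ∈ S
    · rw [if_neg (by simpa using hv), hzero q χ s v hv]
    · rw [if_pos hv, hloc q χ s v hv]
  have hse : ∀ t : ℝ, edgePoint i t = Run7.h522.BM.se i t := fun t => rfl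
  have hWx : ∀ (q : ℕ) (χ : DirichletCharacter ℂ q),
      Run7.h522.BM.Wt (Run7.h522.QA.Sx S q) i (Run7.h522.QA.ax α χ) := fun q χ =>
    Run7.h522.QA.Wt_x hW χ
  have hprim : ∀ q, primitive q = Run7.h522.BD.prim q := fun q => rfl
  -- translation
  have htr : ∀ (T t₀ : ℝ) (g : ℝ → ENNReal), ∫⁻ t in Set.Icc (t₀ - T) (t₀ + T), g t =
      ∫⁻ s in Set.Icc (-T) T, g (t₀ + s) := by
    intro T t₀ g
    have h1 := (measurePreserving_add_left volume t₀).setLIntegral_comp_preimage_emb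
      (MeasurableEquiv.addLeft t₀).measurableEmbedding g (Set.Icc (t₀ - T) (t₀ + T))
    rw [← h1]
    congr 2
    ext s
    simp only [Set.mem_preimage, Set.mem_Icc]
    constructor
    · rintro ⟨h2, h3⟩
      constructor <;> linarith
    · rintro ⟨h2, h3⟩
      constructor <;> linarith
  refine ⟨fun q χ t => Run7.h522.BM.logB (Run7.h522.QA.Sx S (q + 1)) i
    (Run7.h522.QA.ax α χ) t, ?_, ?_⟩
  · have h1 : ∀ᵐ t : ℝ, ∀ (q : ℕ) (χ : DirichletCharacter ℂ (q + 1)),
        t ∉ Pool.Agent.W350.Edge.divSet (Run7.h522.BM.cp (Run7.h522.QA.Sx S (q + 1)) i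
          (Run7.h522.QA.ax α χ)) :=
      ae_all_iff.2 fun q => ae_all_iff.2 fun χ => Run7.h522.BM.ae_notMem (hWx (q + 1) χ)
    filter_upwards [h1] with t ht q χ A
    rw [hlog]
    exact (Run7.h522.BM.boundary_value (hWx (q + 1) χ) (ht q χ)).2 A
  intro Q Z T t₀ hQ hT hZ
  refine ⟨?_, ?_, ?_⟩
  · simp_rw [htr, hshort, hse, hprim]
    refine Run7.h522.BD.fatou hW hQ hT hZ le_rfl t₀ (fun q χ s =>
      Run7.h522.BM.logB (Run7.h522.QA.Sx S (q + 1)) i (Run7.h522.QA.ax α χ) (t₀ + s) -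
      ∑ v ∈ Pool.Agent.W350.EdgeV.FV Pool.Agent.H921R2.TatePole.nm
          Pool.Agent.W350.EdgeNF.hfin Z,
          Run7.h522.BM.lv (Run7.h522.QA.Sx S (q + 1)) (Run7.h522.QA.ax α χ) v
            (Run7.h522.BM.se i (t₀ + s))) ?_
    intro q χ
    have h1 := Run7.h522.BM.ae_notMem (hWx (q + 1) χ)
    have h2 : ∀ᵐ s : ℝ, t₀ + s ∉ Pool.Agent.W350.Edge.divSet
        (Run7.h522.BM.cp (Run7.h522.QA.Sx S (q + 1)) i (Run7.h522.QA.ax α χ)) :=
      (measurePreserving_add_left volume t₀).quasiMeasurePreserving.ae h1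
    filter_upwards [h2] with s hs
    have h3 := (Run7.h522.BM.boundary_value (hWx (q + 1) χ) hs).1
    have h4 := h3.sub_const (∑ v ∈ Pool.Agent.W350.EdgeV.FV Pool.Agent.H921R2.TatePole.nm
          Pool.Agent.W350.EdgeNF.hfin Z,
          Run7.h522.BM.lv (Run7.h522.QA.Sx S (q + 1)) (Run7.h522.QA.ax α χ) v
            (Run7.h522.BM.se i (t₀ + s)))
    refine h4.congr' ?_
    filter_upwards [eventually_ge_atTop Z] with Y hY
    unfold Run7.h522.BD.tl
    rw [Complex.ofReal_zero, add_zero, sub_eq_iff_eq_add]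
    rw [← Finset.sum_union]
    · refine Finset.sum_congr ?_ fun _ _ => rfl
      ext v
      rw [Finset.mem_union, Pool.Agent.W350.EdgeV.mem_FV, Pool.Agent.W350.EdgeV.mem_FV,
        Run7.h522.QA.mem_FZ]
      omega
    · rw [Finset.disjoint_left]
      intro v h5 h6
      rw [Pool.Agent.W350.EdgeV.mem_FV] at h6
      rw [Run7.h522.QA.mem_FZ] at h5
      omega
  · intro y hy
    simp_rw [htr, hshort, hse, hprim, hlog]
    refine Run7.h522.BD.fatou hW hQ hT hZ hy.le t₀ (fun q χ s =>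
      Run7.h522.BM.logL (Run7.h522.QA.Sx S (q + 1)) (Run7.h522.QA.ax α χ)
        (Run7.h522.BM.se i (t₀ + s) + y) -
      ∑ v ∈ Pool.Agent.W350.EdgeV.FV Pool.Agent.H921R2.TatePole.nm
          Pool.Agent.W350.EdgeNF.hfin Z,
          Run7.h522.BM.lv (Run7.h522.QA.Sx S (q + 1)) (Run7.h522.QA.ax α χ) v
            (Run7.h522.BM.se i (t₀ + s) + y)) ?_
    intro q χ
    exact Eventually.of_forall fun s => Run7.h522.QA.logL_sub (hWx (q + 1) χ) hy (t₀ + s) Z
  · intro y P hy hP1 hP2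
    simp_rw [hshort, hse, hprim, hlog]
    set Pt : (q : ℕ) → DirichletCharacter ℂ (q + 1) → Finset ℝ := fun q χ =>
      (P q χ).image fun t => t - t₀ with hPt
    have hPt1 : ∀ q χ, ∀ a ∈ Pt q χ, |a| ≤ T := by
      intro q χ a ha
      rw [hPt, Finset.mem_image] at ha
      obtain ⟨t, ht, rfl⟩ := ha
      exact hP1 q χ t ht
    have hPt2 : ∀ q χ, ∀ a ∈ Pt q χ, ∀ b ∈ Pt q χ, a ≠ b → y ≤ |a - b| := by
      intro q χ a ha b hb hab
      rw [hPt, Finset.mem_image] at ha hb
      obtain ⟨t, ht, rfl⟩ := ha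
      obtain ⟨t', ht', rfl⟩ := hb
      have h1 := hP2 q χ t ht t' ht' fun h => hab (by rw [h])
      rwa [sub_sub_sub_cancel_right]
    have hlim : Tendsto (fun Y => ∑ q ∈ Finset.range Q, ∑ χ ∈ Run7.h522.BD.prim q,
        ∑ t ∈ P q χ, ‖Run7.h522.BD.tl S i α Z Y χ y (t₀ + (t - t₀))‖ ^ 2) atTop
        (𝓝 (∑ q ∈ Finset.range Q, ∑ χ ∈ Run7.h522.BD.prim q, ∑ t ∈ P q χ,
          ‖Run7.h522.BM.logL (Run7.h522.QA.Sx S (q + 1)) (Run7.h522.QA.ax α χ)
        (Run7.h522.BM.se i t + y) -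
      ∑ v ∈ Pool.Agent.W350.EdgeV.FV Pool.Agent.H921R2.TatePole.nm
          Pool.Agent.W350.EdgeNF.hfin Z,
          Run7.h522.BM.lv (Run7.h522.QA.Sx S (q + 1)) (Run7.h522.QA.ax α χ) v
            (Run7.h522.BM.se i t + y)‖ ^ 2)) := by
      refine tendsto_finsetSum _ fun q _ => tendsto_finsetSum _ fun χ _ =>
        tendsto_finsetSum _ fun t _ => ?_
      have h1 := Run7.h522.QA.logL_sub (hWx (q + 1) χ) hy t Z
      have h2 : t₀ + (t - t₀) = t := by ring
      rw [h2]
      exact h1.norm.pow 2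
    refine le_of_tendsto' hlim fun Y => ?_
    have h1 := Run7.h522.BD.pts_tl hW hQ hT hZ hy t₀ Y Pt hPt1 hPt2
    refine le_trans (le_of_eq ?_) h1
    refine Finset.sum_congr rfl fun q _ => Finset.sum_congr rfl fun χ _ => ?_
    rw [hPt]
    simp only
    rw [Finset.sum_image]
    intro a _ b _ hab
    simpa using hab

end Pool.Agent.Results.MP_2b9663_nt.HybridLargeSieve
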