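import Pool.Agent.Run7.h113.HC.Blk
import Pool.Agent.Run7.h113.HC.Main

/-!
# All the L-functions of products of random hyperelliptic curves, up to the edge of absolute convergence

Let `C_l : y² = f_l(x)`, `l ≤ k`, be hyperelliptic curves over `ℚ` of genera `g_l`, `f_l` monic of degree `2 g_l + 1` with
independent integer coefficients of absolute value at most `H`, and let `X = ∏ C_{w t}`, `t ≤ n`, be a product of powers
of these curves in which the curve `C_l` occurs at most `2 g_l + 3` times. For every `i ≤ 2 n` the L-function of
`H^i(X)` should have a pole of order `ρ_i` at the boundary point `s_0 = i / 2 + 1` of the half-plane of absolute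
convergence, where `ρ_i` is the rank of the group of the algebraic classes of codimension `i / 2` (`ρ_i = 0` for odd
`i`), and it should have no zero at `s_0`. The existence of a continuation to `s_0` is not known in general. Here the
question on the behaviour at the edge is answered in law over the family: for `ε_H → 0`, `ε_H log H → ∞`,
`ε_H ^ ρ_i |L(H^i(X), s_0 + ε_H)|` converges in distribution to a random variable with values in the positive real
numbers (so the values at the distance `ε_H` from `s_0` show a pole of order exactly `ρ_i` and no zero), and the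
functions `s ↦ log (L(H^i(X), s + ε_H) / ζ(s + ε_H - i / 2) ^ ρ_i)` converge in distribution to the logarithm of a random
Euler product, uniformly on every compact subset of the *closed* half-plane `Re s ≥ i / 2 + 1`. The random
logarithm is analytic in `Re s > i / 2 + 1 / 2`, and the probability of large values is triple exponentially small.

Definitions (`Run7.h113.HC.Defs`, `Run7.h113.HC.Hyp`):
* `IsFrobenius g β`: `β p r j`, `j < 2 g`, are the normalised eigenvalues of Frobenius on `H¹` of the curve with the
  coefficients `r` modulo `p` (given by the numbers of points over all finite extensions), if `p` is odd and the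
  polynomial is separable modulo `p`; otherwise any numbers of absolute value at most `1` (e.g. `0`).
* `usp g m`: `(m - 1)!!` for even `m` and `0` for odd `m`, minus `1` if `m = 2 g + 2`; the moment of order `m ≤ 2 g + 3`
  of the trace on `USp(2g)`, the dimension of the invariants of the `m`-th tensor power.
* `HasRandomEulerProduct ρ α`: the statement above, for the Euler product `LFun α c s` over the `p` of the product of the
  `(1 - α p (c mod p) j p^(-(1 + s)))⁻¹`. In the Lean text the variable `s` is shifted by `s_0 = i / 2 + 1`, and the
  eigenvalues are divided by `p ^ (i / 2)`. `EulerLogs`: the logarithms; `Converges`: the random Euler product;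
  `FunctionalLimit`: the limit theorem in `C(K, ℂ)`; `LeadingCoefficient`: the law at `s_0`; `Tails`: large deviations.
-/

set_option autoImplicit false

namespace Pool.Agent.Results.MP_2b9663_nt.ProductsOfCurvesLimitLaw

open Finset
open Run7.h113.HC Run7.h113.FE
open Pool.Agent.Y57.FD.Mom (usp)

variable {k n : ℕ} (g : Fin k → ℕ) (w : Fin n → Fin k) (i : ℕ)

/-- The coefficients of `k` polynomials of degrees `2 g_l + 1`. -/
abbrev Coeffs : Type := Σ l, Fin (2 * g l + 1)

/-- The Künneth components of `H^i(X)`: the degrees `0, 1, 2` of the factors, with the sum `i`. -/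
abbrev Degrees (n i : ℕ) : Type := {σ : Fin n → Fin 3 // ∑ t, (σ t : ℕ) = i}

/-- The basis of eigenvectors of Frobenius on `H^i(X)`, `X` the product of the curves `C_{w t}`: a Künneth component, and
one of the `2 g` eigenvalues on `H¹` for each of the factors of degree `1`. -/
abbrev Basis : Type := Σ σ : Degrees n i, ∀ t : {t : Fin n // σ.1 t = 1}, Fin (2 * g (w t))

/-- The eigenvalues of Frobenius on `H^i(X)`, divided by `p ^ (i / 2)` (the eigenvalues on `H⁰` and `H²` of a curve are
`1` and `p`, so these are `1` after this normalisation). -/
noncomputable def eigen (β : ∀ l, (p : Nat.Primes) → (Fin (2 * g l + 1) → ZMod p) → Fin (2 * g l) → ℂ)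
    (p : Nat.Primes) (r : Coeffs g → ZMod p) (J : Basis g w i) : ℂ :=
  ∏ t : {t : Fin n // J.1.1 t = 1}, β (w t) p (fun x => r ⟨w t, x⟩) (J.2 t)

/-- The number of the factors `C_l` of degree `1` in a Künneth component. -/
def number (σ : Degrees n i) (l : Fin k) : ℕ := (univ.filter fun t : {t : Fin n // σ.1 t = 1} => w t = l).card

/-- The order of the pole of the L-function of `H^i(X)` which is predicted for almost all members of the family. -/
noncomputable def order : ℝ := ∑ σ : Degrees n i, ∏ l, usp (g l) (number w i σ l)

/-- **Random Euler products for all the cohomology groups of products of powers of hyperelliptic curves.** -/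
theorem result (k n : ℕ) (g : Fin k → ℕ) (w : Fin n → Fin k)
    (hw : ∀ l, (univ.filter fun t => w t = l).card ≤ 2 * g l + 3)
    (β : ∀ l, (p : Nat.Primes) → (Fin (2 * g l + 1) → ZMod p) → Fin (2 * g l) → ℂ) (hβ : ∀ l, IsFrobenius (g l) (β l))
    (i : ℕ) : HasRandomEulerProduct (order g w i) (eigen g w i β) := by
  classical
  have hnum : ∀ σ : Degrees n i, ∀ l, number w i σ l ≤ 2 * g l + 3 := by
    intro σ l
    refine le_trans ?_ (hw l)
    unfold number
    have h1 : ((univ.filter fun t : {t : Fin n // σ.1 t = 1} => w t = l).map (Function.Embedding.subtype _)) ⊆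
        univ.filter fun t => w t = l := by
      intro t ht
      rw [Finset.mem_map] at ht
      obtain ⟨t', h1, rfl⟩ := ht
      rw [Finset.mem_filter] at h1 ⊢
      exact ⟨mem_univ _, h1.2⟩
    have h2 := Finset.card_le_card h1
    rwa [Finset.card_map] at h2
  choose C hC h using fun σ : Degrees n i => mean_prod g β hβ (number w i σ) (hnum σ)
  refine main (C := ∑ σ, C σ) (fun p r J => ?_) (Finset.sum_nonneg fun σ _ => hC σ) fun p => ?_
  · unfold eigen
    rw [norm_prod]
    exact Finset.prod_le_one (fun t _ => norm_nonneg _) fun t _ => (hβ _).bound p _ _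
  · have e1 : ∀ r : Coeffs g → ZMod p, ∑ J : Basis g w i, eigen g w i β p r J =
        ∑ σ : Degrees n i, ∏ l, TT (β l) p (fun x => r ⟨l, x⟩) ^ number w i σ l := by
      intro r
      rw [Fintype.sum_sigma]
      refine Finset.sum_congr rfl fun σ _ => ?_
      have e2 : ∑ J : (∀ t : {t : Fin n // σ.1 t = 1}, Fin (2 * g (w t))), eigen g w i β p r ⟨σ, J⟩ =
          ∏ t : {t : Fin n // σ.1 t = 1}, TT (β (w t)) p (fun x => r ⟨w t, x⟩) := by
        unfold eigen TT
        rw [Finset.prod_univ_sum, Fintype.piFinset_univ]
      rw [e2]
      have e3 := Finset.prod_comp (s := (univ : Finset {t : Fin n // σ.1 t = 1}))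
        (fun l : Fin k => TT (β l) p (fun x => r ⟨l, x⟩)) (fun t => w t)
      rw [e3]
      refine Finset.prod_subset (Finset.subset_univ _) fun l _ hl => ?_
      have h0 : number w i σ l = 0 := by
        unfold number
        rw [Finset.card_eq_zero, Finset.filter_eq_empty_iff]
        intro t _ ht
        exact hl (Finset.mem_image.mpr ⟨t, mem_univ _, ht⟩)
      unfold number at h0
      rw [h0, pow_zero]
    have e4 : EC p (fun r => ∑ J : Basis g w i, eigen g w i β p r J) - ((order g w i : ℝ) : ℂ) =
        ∑ σ : Degrees n i, (EC p (fun r : Coeffs g → ZMod p => ∏ l, TT (β l) p (fun x => r ⟨l, x⟩) ^ number w i σ l) -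
          ((∏ l, usp (g l) (number w i σ l) : ℝ) : ℂ)) := by
      simp only [e1]
      rw [Finset.sum_sub_distrib]
      congr 1
      · unfold EC
        rw [Finset.sum_comm, ← Finset.sum_div]
      · unfold order
        push_cast
        rfl
    rw [e4]
    refine (norm_sum_le _ _).trans ?_
    rw [Finset.sum_mul]
    exact Finset.sum_le_sum fun σ _ => (h σ p).trans (inv_le_half p (hC σ))

end Pool.Agent.Results.MP_2b9663_nt.ProductsOfCurvesLimitLaw
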