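import Pool.Agent.Run7.h522.BM.Rel2

/-!
# Relations between L-functions of varieties at infinity on the edge of convergence are identities

A finite family of smooth projective varieties `X_m` over number fields `K_m` (for example over
`ℚ`), degrees `i_m ≤ 2 dim X_m` and real numbers `λ_m`.  The Euler product of `L(H^i(X_m), s)`
converges absolutely for `Re s > i/2 + 1`; nothing about a continuation is known or assumed.

`IsFrobenius`, `edgePoint` and `angle` are defined in `Pool/Agent/TH958/BV/Defs.lean`.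
-/

set_option autoImplicit false

namespace Pool.Agent.Results.MP_2b9663_nt.RelationsAtInfinity

open NumberField IsDedekindDomain Filter Topology MeasureTheory Pool.Agent.TH958.BV

/-- `log L_S(H^i(X), s) = ∑_{v ∉ S} ∑_j - log (1 - α_{v,j} q_v^{-s})`, where `α_{v,1}, …, α_{v,N}` are
the eigenvalues of Frobenius at the prime `v` of `K` on `H^i(X)` and `q_v` is the norm of `v`. -/
noncomputable def logL {K : Type} [Field K] [NumberField K] {N : ℕ}
    (S : Set (HeightOneSpectrum (𝓞 K))) (α : HeightOneSpectrum (𝓞 K) → Fin N → ℂ) (s : ℂ) : ℂ :=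
  ∑' v : {v : HeightOneSpectrum (𝓞 K) // v ∉ S},
    ∑ j, -Complex.log (1 - α v j * (Ideal.absNorm v.1.asIdeal : ℂ) ^ (-s))

/-- The function `g` tends to zero in density along arbitrarily long intervals: for all `η > 0` and `T`
there is an interval `(a, b]` of length at least `T` such that `g(τ) ≤ η` for all `τ` in it outside a
set of measure at most `η (b - a)`. -/
def DensityZero (g : ℝ → ℝ) : Prop :=
  ∀ η : ℝ, 0 < η → ∀ T : ℝ, ∃ a b : ℝ, T ≤ b - a ∧
    volume {τ ∈ Set.Ioc a b | η < g τ} ≤ ENNReal.ofReal (η * (b - a))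

/-- **Relations at infinity are identities.**  For every finite family of varieties as above there is
a measurable function `l = (l_m)` with the following properties.

* `log L_S(H^i(X_m), s + iλ_m)` tends to `l_m(τ)` as `s` tends to `i_m/2 + 1 + iτ` in any angle in the
  half-plane `Re s > i_m/2 + 1`, for all `m` and almost all real `τ`.
* If `Φ` is an entire function of several variables and `Φ(l(τ))` tends to zero in density along
  arbitrarily long intervals, then `Φ(log L_S(H^i(X_m), s + i_m/2 + iλ_m))_m = 0` for all `s` with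
  `Re s > 1`.
* If `c_m` are complex numbers and `Re ∑ c_m l_m(τ)` tends to a real number `A` in density along
  arbitrarily long intervals, then `A = 0` and `∑ c_m log L_S(H^i(X_m), s + i_m/2 + iλ_m) = 0` for
  all `s` with `Re s > 1`. -/
theorem result (M : Type) [Fintype M] (K : M → Type) [∀ m, Field (K m)] [∀ m, NumberField (K m)]
    (n d i N : M → ℕ) (X : ∀ m, Set (MvPolynomial (Fin (n m)) (𝓞 (K m))))
    (_ : ∀ m, i m ≤ 2 * d m) (S : ∀ m, Set (HeightOneSpectrum (𝓞 (K m))))
    (_ : ∀ m, (S m).Finite) (α : ∀ m, HeightOneSpectrum (𝓞 (K m)) → Fin (N m) → ℂ)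
    (_ : ∀ m v, v ∉ S m → IsFrobenius (X m) (d m) (i m) v (α m v)) (lam : M → ℝ) :
    ∃ l : ℝ → M → ℂ, Measurable l ∧
      (∀ᵐ τ : ℝ, ∀ (m : M) (A : ℝ), Tendsto (fun s => logL (S m) (α m) (s + lam m * Complex.I))
        (𝓝[angle (i m) τ A] (edgePoint (i m) τ)) (𝓝 (l τ m))) ∧
      (∀ Φ : (M → ℂ) → ℂ, Differentiable ℂ Φ → DensityZero (fun τ => ‖Φ (l τ)‖) →
        ∀ s : ℂ, 1 < s.re →
          Φ (fun m => logL (S m) (α m) (s + (i m : ℂ) / 2 + lam m * Complex.I)) = 0) ∧
      ∀ (c : M → ℂ) (A : ℝ), DensityZero (fun τ => |(∑ m, c m * l τ m).re - A|) →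
        A = 0 ∧ ∀ s : ℂ, 1 < s.re →
          ∑ m, c m * logL (S m) (α m) (s + (i m : ℂ) / 2 + lam m * Complex.I) = 0 := by
  classical
  rename_i hS hα
  -- the shifted eigenvalues
  set β : ∀ m, HeightOneSpectrum (𝓞 (K m)) → Fin (N m) → ℂ := fun m v j =>
    α m v j * (Ideal.absNorm v.asIdeal : ℂ) ^ (-(lam m * Complex.I)) with hβ
  have hq : ∀ m (v : HeightOneSpectrum (𝓞 (K m))), Ideal.absNorm v.asIdeal ≠ 0 := fun m v =>
    Pool.Agent.H921R2.TatePole.nm_ne_zero v
  have hW : ∀ m, Run7.h522.BM.Wt (S m) (i m) (β m) := by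
    intro m v hv j
    have h1 : ‖(Ideal.absNorm v.asIdeal : ℂ) ^ (-(lam m * Complex.I))‖ = 1 := by
      have h2 := Complex.norm_natCast_cpow_of_pos (Nat.pos_of_ne_zero (hq m v))
        (-(lam m * Complex.I))
      rw [h2]
      simp
    rw [hβ]
    simp only
    rw [norm_mul, h1, mul_one]
    exact norm_of_isFrobenius (hα m v hv) j
  have hlog : ∀ m (s : ℂ), Run7.h522.BM.logL (S m) (β m) s =
      logL (S m) (α m) (s + lam m * Complex.I) := by
    intro m s
    unfold logL Run7.h522.BM.logL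
    have h1 := tsum_subtype (({v | v ∉ S m} : Set (HeightOneSpectrum (𝓞 (K m)))))
      (fun v => ∑ j, -Complex.log (1 - α m v j *
        (Ideal.absNorm v.asIdeal : ℂ) ^ (-(s + lam m * Complex.I))))
    refine Eq.symm (h1.trans (tsum_congr fun v => ?_))
    unfold Run7.h522.BM.lv
    by_cases hv : v ∈ S m
    · rw [if_pos hv, Set.indicator_of_notMem (by simpa using hv)]
    · rw [if_neg hv, Set.indicator_of_mem (by simpa using hv)]
      refine Finset.sum_congr rfl fun j _ => ?_
      have hq0 : (Ideal.absNorm v.asIdeal : ℂ) ≠ 0 := by exact_mod_cast hq m v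
      rw [hβ]
      simp only
      rw [mul_assoc, ← Complex.cpow_add _ _ hq0]
      congr 4
      ring_nf
  have hm : ∀ m, AEMeasurable (Run7.h522.BM.logB (S m) (i m) (β m)) := fun m =>
    Run7.h522.BM.aemeasurable_logB (hW m)
  set l : ℝ → M → ℂ := fun τ m => (hm m).mk _ τ with hl
  have hle : ∀ᵐ τ : ℝ, Run7.h522.BM.LB S i β τ = l τ := by
    have h1 : ∀ᵐ τ : ℝ, ∀ m, Run7.h522.BM.logB (S m) (i m) (β m) τ = (hm m).mk _ τ :=
      ae_all_iff.2 fun m => (hm m).ae_eq_mk
    filter_upwards [h1] with τ h2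
    funext m
    exact h2 m
  have hdens : ∀ g : (M → ℂ) → ℝ, DensityZero (fun τ => g (l τ)) →
      Run7.h522.BM.DensityZero (fun τ => g (Run7.h522.BM.LB S i β τ)) := by
    intro g hg η hη T
    obtain ⟨a, b, hab, h⟩ := hg η hη T
    refine ⟨a, b, hab, le_trans (measure_mono_ae ?_) h⟩
    filter_upwards [hle] with τ h1 h2
    exact ⟨h2.1, by rw [← h1]; exact h2.2⟩
  have hpt : ∀ m (s : ℂ), Run7.h522.BM.se (i m) s.im + ((s.re - 1 : ℝ) : ℂ) =
      s + (i m : ℂ) / 2 := by
    intro m s
    unfold Run7.h522.BM.se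
    conv_rhs => rw [← Complex.re_add_im s]
    push_cast
    ring
  refine ⟨l, measurable_pi_lambda _ fun m => (hm m).measurable_mk, ?_, ?_, ?_⟩
  · have h1 : ∀ᵐ τ : ℝ, ∀ m, τ ∉ Pool.Agent.W350.Edge.divSet
        (Run7.h522.BM.cp (S m) (i m) (β m)) :=
      ae_all_iff.2 fun m => Run7.h522.BM.ae_notMem (hW m)
    filter_upwards [h1, hle] with τ h1 h2 m A
    simp_rw [← hlog]
    rw [← h2]
    exact (Run7.h522.BM.boundary_value (hW m) (h1 m)).2 A
  · intro Φ hΦ h s hs
    have h1 := Run7.h522.BM.identities hW hΦ (hdens (fun x => ‖Φ x‖) h)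
      (y := s.re - 1) (by linarith) s.im
    simp_rw [hpt, hlog] at h1
    exact h1
  · intro c A h
    obtain ⟨h1, h2⟩ := Run7.h522.BM.real_identities hW c A
      (hdens (fun x => |(∑ m, c m * x m).re - A|) h)
    refine ⟨h1, fun s hs => ?_⟩
    have h3 := h2 (s.re - 1) (by linarith) s.im
    simp_rw [hpt, hlog] at h3
    exact h3

end Pool.Agent.Results.MP_2b9663_nt.RelationsAtInfinity
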